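import Pool.Agent.Q224.Arb.Tree

/-!
# MP_edc851_co : the `h*`-polynomial of arbor polytopes (Q1, affirmative, in full).
-/

namespace Pool.Agent.Results.MP_edc851_co.ArborHStar

open Polynomial Pointwise

/-- An arbor of size `n`: a rooted tree whose vertices are the blocks of a set partition of the
ground set `Fin n`. The rooted tree is given by its parent function; iterating `parent` from any
vertex reaches `root` (and `root` is by convention its own parent). -/
structure Arbor (n : ℕ) where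
  blocks : Finpartition (Finset.univ : Finset (Fin n))
  root : {B : Finset (Fin n) // B ∈ blocks.parts}
  parent : {B : Finset (Fin n) // B ∈ blocks.parts} → {B : Finset (Fin n) // B ∈ blocks.parts}
  parent_root : parent root = root
  reach : ∀ v, ∃ k : ℕ, parent^[k] v = root

open Classical in
/-- `𝒟(v)`: the union of `v` and all blocks that are descendants of `v`. -/
noncomputable def Arbor.D {n : ℕ} (τ : Arbor n)
    (v : {B : Finset (Fin n) // B ∈ τ.blocks.parts}) : Finset (Fin n) :=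
  Finset.univ.filter (fun i =>
    ∃ u : {B : Finset (Fin n) // B ∈ τ.blocks.parts}, i ∈ u.1 ∧ ∃ k : ℕ, τ.parent^[k] u = v)

/-- The arbor polytope `𝒬_τ`. -/
def arborPolytope {n : ℕ} (τ : Arbor n) : Set (Fin n → ℝ) :=
  {x | (∀ i, 0 ≤ x i) ∧ ∀ v, ∑ i ∈ τ.D v, x i ≤ ((τ.D v).card : ℝ)}

/-- `Ehr(𝒬_τ, m) = #(m 𝒬_τ ∩ ℤ^n)`. -/
noncomputable def ehr {n : ℕ} (τ : Arbor n) (m : ℕ) : ℕ :=
  Nat.card {x : Fin n → ℤ // (fun i => (x i : ℝ)) ∈ (m : ℝ) • arborPolytope τ}

/-- `h` is the `h*`-polynomial of `𝒬_τ`: `∑_m Ehr(𝒬_τ, m) t^m = h(t)/(1-t)^(n+1)`. -/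
def IsHStar {n : ℕ} (τ : Arbor n) (h : ℤ[X]) : Prop :=
  (h : PowerSeries ℤ) = PowerSeries.mk (fun m => ((ehr τ m : ℕ) : ℤ)) * (1 - PowerSeries.X) ^ (n + 1)

/-- Number of descents `w_i > w_{i+1}` of a word `w ∈ [n]^n`. -/
def des {n : ℕ} (w : Fin n → Fin n) : ℕ :=
  (Finset.univ.filter (fun i : Fin n => ∃ h : i.val + 1 < n, w ⟨i.val + 1, h⟩ < w i)).card

open Classical in
/-- The words `𝒲_τ`: for every vertex `v`, at least `|𝒟(v)|` letters lie in `𝒟(v)`. -/
noncomputable def words {n : ℕ} (τ : Arbor n) : Finset (Fin n → Fin n) :=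
  Finset.univ.filter (fun w => ∀ v,
    (τ.D v).card ≤ (Finset.univ.filter (fun j : Fin n => w j ∈ τ.D v)).card)

/-! ### proof -/

variable {n : ℕ} (τ : Arbor n)

/-- the block containing `i` -/
def blk (i : Fin n) : {B : Finset (Fin n) // B ∈ τ.blocks.parts} :=
  ⟨τ.blocks.part i, τ.blocks.part_mem.2 (Finset.mem_univ i)⟩

lemma blk_eq {i : Fin n} {u : {B : Finset (Fin n) // B ∈ τ.blocks.parts}} :
    i ∈ u.1 ↔ blk τ i = u := by
  constructor
  · intro h
    exact Subtype.ext (τ.blocks.part_eq_of_mem u.2 h)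
  · rintro rfl
    exact (τ.blocks.mem_part_self).2 (Finset.mem_univ i)

lemma blk_surj : Function.Surjective (blk τ) := by
  intro u
  obtain ⟨i, hi⟩ := τ.blocks.nonempty_of_mem_parts u.2
  exact ⟨i, (blk_eq τ).1 hi⟩

lemma D_eq (v) : τ.D v = Q224.Arb.DD τ.parent (blk τ) v := by
  ext i
  simp only [Arbor.D, Q224.Arb.DD, Finset.mem_filter, Finset.mem_univ, true_and]
  constructor
  · rintro ⟨u, hu, h⟩
    rw [(blk_eq τ).1 hu]; exact h
  · intro h
    exact ⟨blk τ i, (blk_eq τ).2 rfl, h⟩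

lemma D_root : τ.D τ.root = Finset.univ := by
  rw [D_eq]
  exact Q224.Arb.DD_root τ.parent_root τ.reach

lemma mem_smul_iff (m : ℕ) (x : Fin n → ℝ) : x ∈ (m : ℝ) • arborPolytope τ ↔
    (∀ i, 0 ≤ x i) ∧ ∀ v, ∑ i ∈ τ.D v, x i ≤ (m : ℝ) * ((τ.D v).card : ℝ) := by
  constructor
  · rintro ⟨y, ⟨hy1, hy2⟩, rfl⟩
    have hm : (0 : ℝ) ≤ m := Nat.cast_nonneg m
    refine ⟨fun i => ?_, fun v => ?_⟩
    · simp only [Pi.smul_apply, smul_eq_mul]
      exact mul_nonneg hm (hy1 i)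
    · simp only [Pi.smul_apply, smul_eq_mul, ← Finset.mul_sum]
      exact mul_le_mul_of_nonneg_left (hy2 v) hm
  · rintro ⟨h1, h2⟩
    rcases Nat.eq_zero_or_pos m with hm | hm
    · subst hm
      have h3 := h2 τ.root
      rw [D_root] at h3
      simp only [Nat.cast_zero, zero_mul] at h3
      have h4 : ∑ i, x i = 0 := le_antisymm h3 (Finset.sum_nonneg (fun i _ => h1 i))
      have h5 : x = 0 := by
        funext i
        exact (Finset.sum_eq_zero_iff_of_nonneg (fun i _ => h1 i)).1 h4 i (Finset.mem_univ i)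
      rw [h5]
      refine ⟨0, ⟨fun i => le_rfl, fun v => ?_⟩, by simp⟩
      simp
    · have hm' : (0 : ℝ) < m := by exact_mod_cast hm
      refine ⟨(m : ℝ)⁻¹ • x, ⟨fun i => ?_, fun v => ?_⟩, ?_⟩
      · simp only [Pi.smul_apply, smul_eq_mul]
        exact mul_nonneg (inv_nonneg.2 hm'.le) (h1 i)
      · simp only [Pi.smul_apply, smul_eq_mul, ← Finset.mul_sum]
        have := mul_le_mul_of_nonneg_left (h2 v) (inv_nonneg.2 hm'.le)
        rwa [← mul_assoc, inv_mul_cancel₀ hm'.ne', one_mul] at this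
      · change (m : ℝ) • ((m : ℝ)⁻¹ • x) = x
        rw [smul_smul, mul_inv_cancel₀ hm'.ne', one_smul]

lemma ehr_eq (m : ℕ) : ehr τ m = Nat.card {x : Fin n → ℕ //
    ∀ v, ∑ i ∈ τ.D v, x i ≤ m * (τ.D v).card} := by
  unfold ehr
  apply Nat.card_congr
  refine ⟨fun x => ⟨fun i => (x.1 i).toNat, ?_⟩, fun x => ⟨fun i => (x.1 i : ℤ), ?_⟩, ?_, ?_⟩
  · obtain ⟨x, hx⟩ := x
    rw [mem_smul_iff] at hx
    obtain ⟨h1, h2⟩ := hx
    intro v
    have h3 : ∀ i, ((x i).toNat : ℤ) = x i := fun i => Int.toNat_of_nonneg (by exact_mod_cast h1 i)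
    have h4 : ∑ i ∈ τ.D v, x i ≤ (m : ℤ) * ((τ.D v).card : ℤ) := by exact_mod_cast h2 v
    have h5 : ((∑ i ∈ τ.D v, (x i).toNat : ℕ) : ℤ) = ∑ i ∈ τ.D v, x i := by
      push_cast
      exact Finset.sum_congr rfl (fun i _ => by have := h3 i; omega)
    simp only
    zify
    rw [← h5] at h4
    exact_mod_cast h4
  · rw [mem_smul_iff]
    refine ⟨fun i => ?_, fun v => ?_⟩
    · push_cast; exact Nat.cast_nonneg _
    · have := x.2 v
      push_cast
      exact_mod_cast this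
  · intro x
    apply Subtype.ext
    funext i
    obtain ⟨x, hx⟩ := x
    rw [mem_smul_iff] at hx
    exact Int.toNat_of_nonneg (by exact_mod_cast hx.1 i)
  · intro x
    apply Subtype.ext
    funext i
    simp

lemma cont_sum {N q : ℕ} (w : Fin N → Fin q) (D : Finset (Fin q)) :
    ∑ i ∈ D, Q224.Arb.cont w i = (Finset.univ.filter (fun j => w j ∈ D)).card := by
  unfold Q224.Arb.cont
  rw [Finset.card_eq_sum_card_fiberwise (f := w) (t := D)]
  · apply Finset.sum_congr rfl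
    intro i hi
    congr 1
    ext j
    simp only [Finset.mem_filter, Finset.mem_univ, true_and]
    constructor
    · intro h; exact ⟨by rw [h]; exact hi, h⟩
    · exact fun h => h.2
  · intro j hj
    simpa using hj

lemma dcount_eq {N : ℕ} (w : Fin (N + 1) → Fin (N + 1)) : Q224.Arb.dcount w N = des w := by
  unfold Q224.Arb.dcount des
  apply Finset.card_bij (fun i _ => i.castSucc)
  · intro i hi
    simp only [Finset.mem_filter, Finset.mem_univ, true_and] at hi ⊢
    exact ⟨by simp, hi.2⟩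
  · intro i _ j _ h
    exact Fin.castSucc_injective _ h
  · intro j hj
    simp only [Finset.mem_filter, Finset.mem_univ, true_and] at hj
    obtain ⟨h, hj⟩ := hj
    refine ⟨⟨j.val, by omega⟩, ?_, ?_⟩
    · simp only [Finset.mem_filter, Finset.mem_univ, true_and]
      exact ⟨by omega, hj⟩
    · ext; rfl

lemma des_le {N : ℕ} (w : Fin (N + 1) → Fin (N + 1)) : des w ≤ N := by
  rw [← dcount_eq]
  unfold Q224.Arb.dcount
  exact (Finset.card_le_univ _).trans (by simp)

lemma series_choose (N δ : ℕ) (hδ : δ ≤ N) :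
    PowerSeries.mk (fun m => (((m + 1 + δ).choose (N + 1) : ℕ) : ℤ)) *
      (1 - PowerSeries.X) ^ (N + 1 + 1) = PowerSeries.X ^ (N - δ) := by
  have h1 : PowerSeries.mk (fun m => (((m + 1 + δ).choose (N + 1) : ℕ) : ℤ)) =
      PowerSeries.X ^ (N - δ) * PowerSeries.mk (fun m => (((N + 1 + m).choose (N + 1) : ℕ) : ℤ)) := by
    ext m
    rw [PowerSeries.coeff_mk, PowerSeries.coeff_X_pow_mul']
    split_ifs with h
    · rw [PowerSeries.coeff_mk]
      congr 2
      omega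
    · rw [Nat.choose_eq_zero_of_lt (by omega)]
      rfl
  rw [h1, mul_assoc, PowerSeries.mk_add_choose_mul_one_sub_pow_eq_one, mul_one]

/-- **Main theorem.** For every `n ≥ 1` and every arbor `τ` of size `n`,
`h*(𝒬_τ, t) = ∑_{w ∈ 𝒲_τ} t^(n-1-des(w))`. -/
theorem result : ∀ n : ℕ, 1 ≤ n → ∀ τ : Arbor n,
    IsHStar τ (∑ w ∈ words τ, X ^ (n - 1 - des w)) := by
  intro n hn τ
  obtain ⟨N, rfl⟩ : ∃ N, n = N + 1 := ⟨n - 1, by omega⟩
  classical
  have hE : ∀ m : ℕ, ((ehr τ m : ℕ) : ℤ) =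
      ∑ w ∈ words τ, (((m + 1 + des w).choose (N + 1) : ℕ) : ℤ) := by
    intro m
    rw [ehr_eq]
    simp_rw [D_eq]
    rw [Q224.Arb.tree_count τ.parent_root τ.reach m (blk_surj τ)]
    have h1 := Q224.Arb.macmahon (m + 1) (N + 1) N (fun c =>
      ∀ v, (Q224.Arb.DD τ.parent (blk τ) v).card ≤ ∑ i ∈ Q224.Arb.DD τ.parent (blk τ) v, c i)
    have h2 : (∑ c ∈ (Finset.piAntidiag (Finset.univ : Finset (Fin (N + 1))) (N + 1)).filter
        (fun c => ∀ v, (Q224.Arb.DD τ.parent (blk τ) v).card ≤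
          ∑ i ∈ Q224.Arb.DD τ.parent (blk τ) v, c i),
        ∏ i, ((m + 1).choose (c i) : ℤ)) =
        ((∑ c ∈ (Finset.piAntidiag (Finset.univ : Finset (Fin (N + 1))) (N + 1)).filter
        (fun c => ∀ v, (Q224.Arb.DD τ.parent (blk τ) v).card ≤
          ∑ i ∈ Q224.Arb.DD τ.parent (blk τ) v, c i),
        ∏ i, ((m + 1).choose (c i)) : ℕ) : ℤ) := by
      push_cast
      apply Finset.sum_congr _ (fun _ _ => rfl)
      ext x
      simp only [Finset.mem_filter]
    rw [h2, ← h1, words, Finset.sum_filter]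
    push_cast
    apply Finset.sum_congr rfl
    intro w _
    have h3 : (∀ v, (Q224.Arb.DD τ.parent (blk τ) v).card ≤
        ∑ i ∈ Q224.Arb.DD τ.parent (blk τ) v, Q224.Arb.cont w i) ↔
        (∀ v, (τ.D v).card ≤ (Finset.univ.filter (fun j => w j ∈ τ.D v)).card) := by
      apply forall_congr'
      intro v
      rw [cont_sum, D_eq]
    by_cases h4 : (∀ v, (τ.D v).card ≤ (Finset.univ.filter (fun j => w j ∈ τ.D v)).card)
    · rw [if_pos (h3.2 h4), if_pos h4, dcount_eq]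
    · rw [if_neg (fun h => h4 (h3.1 h)), if_neg h4]
  unfold IsHStar
  have h5 : PowerSeries.mk (fun m => ((ehr τ m : ℕ) : ℤ)) =
      ∑ w ∈ words τ, PowerSeries.mk (fun m => (((m + 1 + des w).choose (N + 1) : ℕ) : ℤ)) := by
    ext m
    rw [map_sum, PowerSeries.coeff_mk, hE]
    simp only [PowerSeries.coeff_mk]
  rw [h5, Finset.sum_mul]
  have h6 : ((∑ w ∈ words τ, X ^ (N + 1 - 1 - des w) : ℤ[X]) : PowerSeries ℤ) =
      ∑ w ∈ words τ, ((X ^ (N + 1 - 1 - des w) : ℤ[X]) : PowerSeries ℤ) :=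
    map_sum (Polynomial.coeToPowerSeries.ringHom (R := ℤ)) _ _
  rw [h6]
  apply Finset.sum_congr rfl
  intro w _
  rw [series_choose N (des w) (des_le w), Polynomial.coe_pow, Polynomial.coe_X]
  rfl

end Pool.Agent.Results.MP_edc851_co.ArborHStar
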